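import Pool.Agent.V5helper20.FC.Stm
import Pool.Agent.V5helper79.QB.MINg

set_option autoImplicit false

/-!
# Project FC, jobs MNC and VTX: the least unknown distance; the number of vertices
-/

namespace Pool.Agent.V5helper38.FC

open Set Complex
open Pool.Agent.W780.PG (IsConvexPolygon region)
open Pool.Agent.N275.GP
open Pool.Agent.V5helper71.QB
open Pool.Agent.V5helper20.FC
open Pool.Agent.V5helper79.QB (ap_pos)
open scoped Real

open scoped Classical in
/-- the sides whose neighbours turn by at least `π` -/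
noncomputable def BB {m : ℕ} (q : Fin (m + 3) → ℂ) : Finset (Fin (m + 3)) :=
  Finset.univ.filter fun a => ¬ 0 < cr (nu q a) (nu q (a + 1 + 1))

theorem mem_BB {m : ℕ} {q : Fin (m + 3) → ℂ} {a : Fin (m + 3)} :
    a ∈ BB q ↔ ¬ 0 < cr (nu q a) (nu q (a + 1 + 1)) := by
  unfold BB
  simp

/-- there are at most three such sides, or all four of a quadrilateral -/
theorem few {m : ℕ} {q : Fin (m + 3) → ℂ} (hq : IsConvexPolygon q) :
    (BB q).card ≤ 3 ∨ (m = 1 ∧ BB q = Finset.univ) := by
  classical
  rcases le_or_gt (BB q).card 3 with hle | hgt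
  · exact Or.inl hle
  right
  obtain ⟨φ, hφ⟩ := exists_An hq 0
  have hcard : 4 ≤ (BB q).card := hgt
  set B := BB q with hB
  set g : Fin (m + 3) → ℝ := fun a => φ (a.val + 2) - φ a.val with hg
  have hgpos : ∀ a, 0 < g a := fun a => sub_pos.2 (hφ.mono (by omega))
  have hgB : ∀ a ∈ B, π ≤ g a := by
    intro a ha
    rw [hB, mem_BB] at ha
    by_contra h
    push Not at h
    apply ha
    have h1 := hφ.cr' a.val (a.val + 2)
    have e1 : (0 : Fin (m + 3)) + Fin.ofNat (m + 3) a.val = a := by
      have := add_fo (0 : Fin (m + 3)) a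
      rwa [sub_zero] at this
    have e2 : (0 : Fin (m + 3)) + Fin.ofNat (m + 3) (a.val + 2) = a + 1 + 1 := by
      rw [fo_succ, fo_succ, ← add_assoc, ← add_assoc, e1]
    rw [e1, e2] at h1
    rw [h1]
    exact Real.sin_pos_of_pos_of_lt_pi (hgpos a) h
  have hsum : ∑ a, g a = 4 * π := by
    rw [hg, Fin.sum_univ_eq_sum_range (fun k => φ (k + 2) - φ k) (m + 3)]
    have h1 : ∀ k ∈ Finset.range (m + 3), φ (k + 2) - φ k =
        (φ (k + 1 + 1) - φ (k + 1)) + (φ (k + 1) - φ k) := fun k _ => by ring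
    rw [Finset.sum_congr rfl h1, Finset.sum_add_distrib, Finset.sum_range_sub,
      Finset.sum_range_sub (fun k => φ (k + 1))]
    have h2 := hφ.per 1
    have h3 := hφ.two_pi
    have e1 : m + 3 + 1 = 1 + (m + 3) := by ring
    rw [e1, h2, h3, hφ.zero]
    simp only [zero_add]
    ring
  have hBu : B = Finset.univ := by
    by_contra h
    obtain ⟨a, ha⟩ : ∃ a, a ∉ B := by
      by_contra h2
      push Not at h2
      exact h (Finset.eq_univ_iff_forall.2 h2)
    have h1 : ∑ b ∈ insert a B, g b ≤ ∑ b, g b :=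
      Finset.sum_le_sum_of_subset_of_nonneg (Finset.subset_univ _) fun i _ _ => (hgpos i).le
    rw [Finset.sum_insert ha, hsum] at h1
    have h2 : ∑ b ∈ B, π ≤ ∑ b ∈ B, g b := Finset.sum_le_sum hgB
    rw [Finset.sum_const, nsmul_eq_mul] at h2
    have h3 : (4 : ℝ) ≤ B.card := by exact_mod_cast hcard
    have h4 := mul_le_mul_of_nonneg_right h3 Real.pi_pos.le
    have h5 := hgpos a
    linarith
  have hm : m = 1 := by
    have h2 : ∑ b ∈ B, π ≤ ∑ b ∈ B, g b := Finset.sum_le_sum hgB
    have h0 : 4 ≤ m + 3 := by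
      have := hcard
      rw [hBu, Finset.card_univ, Fintype.card_fin] at this
      exact this
    rw [hBu, hsum, Finset.sum_const, nsmul_eq_mul, Finset.card_univ, Fintype.card_fin] at h2
    have h3 : ((m + 3 : ℕ) : ℝ) ≤ 4 := le_of_mul_le_mul_right h2 Real.pi_pos
    have h4 : m + 3 ≤ 4 := by exact_mod_cast h3
    omega
  exact ⟨hm, hBu⟩

/-- the pair of the neighbours of a side is short -/
theorem sh_two {m : ℕ} {q : Fin (m + 3) → ℂ} {a : Fin (m + 3)} (h : a ∉ BB q) :
    Sh (nu q) a (a + 1 + 1) := by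
  rw [mem_BB, not_not] at h
  refine ⟨?_, h⟩
  intro h1
  have h3 : (1 : Fin (m + 3)) = 0 := by
    have : a + 1 + 1 = a + 1 + 0 := by rw [h1, add_zero]
    exact add_left_cancel this
  have h4 := congrArg Fin.val h3
  have h5 : (0 : Fin (m + 3)).val = 0 := rfl
  have n1 : (1 : Fin (m + 3)).val = 1 := rfl
  omega

theorem bt_two {m : ℕ} (a : Fin (m + 3)) : Bt a (a + 1) (a + 1 + 1) := by
  have n1 : (1 : Fin (m + 3)).val = 1 := rfl
  have n2 : ((1 : Fin (m + 3)) + 1).val = 2 := by
    rw [Fin.val_add, n1, Nat.mod_eq_of_lt (by omega)]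
  have e1 : a + 1 - a = 1 := add_sub_cancel_left _ _
  have e2 : a + 1 + 1 - a = 1 + 1 := by rw [add_assoc, add_sub_cancel_left]
  exact ⟨by rw [e1, n1]; omega, by rw [e1, e2, n1, n2]; omega⟩

/-- the distance of the neighbours is at most the length of the side -/
theorem dlt_le_ln {m : ℕ} {q : Fin (m + 3) → ℂ} (hq : IsConvexPolygon q) {a : Fin (m + 3)}
    (h : Sh (nu q) a (a + 1 + 1)) : dlt q a (a + 1 + 1) ≤ ln q (a + 1) := by
  have h1 := (Pool.Agent.N441.GP.gd h_PH m q a (a + 1 + 1) hq h).2 (q (a + 1)) (q (a + 1 + 1))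
    (le_of_eq (co_next hq a).symm) (fun i _ => ip_le_co hq i _) le_rfl
    (fun i _ => ip_le_co hq i _)
  rw [norm_sub_rev] at h1
  exact h1

theorem t_MNC : S_MNC := by
  classical
  intro n q S hC hS
  have hq := hC.conv
  obtain ⟨a, ha1, ha2⟩ : ∃ a, a + 1 ∉ S ∧ a ∉ BB q := by
    by_contra hcon
    push Not at hcon
    have hcov : (Finset.univ : Finset (Fin (n + 3))) ⊆ S.image (fun i => i - 1) ∪ BB q := by
      intro a _
      rw [Finset.mem_union]
      by_cases h : a + 1 ∈ S
      · left
        exact Finset.mem_image.2 ⟨a + 1, h, add_sub_cancel_right _ _⟩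
      · right
        exact hcon a h
    have h1 := Finset.card_le_card hcov
    have h2 := Finset.card_union_le (S.image (fun i => i - 1)) (BB q)
    have h3 : (S.image (fun i => i - 1)).card ≤ S.card := Finset.card_image_le
    rw [Finset.card_univ, Fintype.card_fin] at h1
    rcases few hq with h4 | ⟨hm, hB⟩
    · omega
    · subst hm
      have k1 : (0 : Fin (1 + 3)) ∈ BB q := by rw [hB]; exact Finset.mem_univ _
      have k2 : (2 : Fin (1 + 3)) ∈ BB q := by rw [hB]; exact Finset.mem_univ _
      rw [mem_BB] at k1 k2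
      have e1 : (0 : Fin (1 + 3)) + 1 + 1 = 2 := by decide
      have e2 : (2 : Fin (1 + 3)) + 1 + 1 = 0 := by decide
      rw [e1] at k1
      rw [e2, cr_comm] at k2
      have hap : Ap (nu q) 0 2 := ⟨by decide, by
        have k3 := not_lt.1 k1
        have k4 := not_lt.1 k2
        linarith⟩
      have h5 := hC.par 0 2 1 hap
      have h6 : co q 0 + co q 2 ≤ ln q 1 := by
        have hpos := ap_pos hq hap
        obtain ⟨hab, hc⟩ := hap
        have hsq := ip_sq_cr_sq (nu q 0) (nu q 2)
        rw [hc, norm_nu hq, norm_nu hq] at hsq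
        have hv : nu q 2 = (ip (nu q 0) (nu q 2) : ℂ) * nu q 0 := by
          have e1 := ip_one hq 0
          apply Complex.ext
          · simp only [Complex.mul_re, Complex.ofReal_re, Complex.ofReal_im, zero_mul, sub_zero]
            simp only [ip, cr] at e1 hc ⊢
            linear_combination (-(nu q 2).re) * e1 - (nu q 0).im * hc
          · simp only [Complex.mul_im, Complex.ofReal_re, Complex.ofReal_im, zero_mul, add_zero]
            simp only [ip, cr] at e1 hc ⊢
            linear_combination (-(nu q 2).im) * e1 + (nu q 0).re * hc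
        have h3 : (ip (nu q 0) (nu q 2) - 1) * (ip (nu q 0) (nu q 2) + 1) = 0 := by linarith
        have h5 : ip (nu q 0) (nu q 2) = -1 := by
          rcases mul_eq_zero.1 h3 with h4 | h4
          · exfalso
            have h5 : ip (nu q 0) (nu q 2) = 1 := by linarith
            rw [h5] at hv
            have h6 : nu q 2 = nu q 0 := by rw [hv]; push_cast; ring
            have h7 := ip_lt hq (i := 2) (k := 1) (by decide) (by decide)
            have h8 := ip_le_co hq 0 2
            have h9 := co_next hq 0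
            rw [h6] at h7
            have e3 : (0 : Fin (1 + 3)) + 1 = 1 := by decide
            rw [e3] at h9
            have h10 : co q 2 = ip (nu q 2) (q 2) := rfl
            rw [h6] at h10
            linarith
          · linarith
        rw [h5] at hv
        have h6 : co q 2 = -ip (nu q 0) (q 2) := by
          rw [co, hv, smul_ip]; ring
        have h7 := co_next hq 0
        have e3 : (0 : Fin (1 + 3)) + 1 = 1 := by decide
        rw [e3] at h7
        have h8 := ip_le (nu q 0) (q 1 - q 2)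
        rw [norm_nu hq, one_mul] at h8
        have h9 : ln q 1 = ‖q 1 - q 2‖ := by
          rw [norm_sub_rev]
          rfl
        have h10 : ip (nu q 0) (q 1 - q 2) = ip (nu q 0) (q 1) - ip (nu q 0) (q 2) := by
          simp only [ip, Complex.sub_re, Complex.sub_im]; ring
        rw [h9, h6]
        linarith
      linarith
  have hsh := sh_two ha2
  have hun : Un S a (a + 1 + 1) := ⟨a + 1, bt_two a, ha1⟩
  set W : Set ℝ := {x | ∃ a b, Sh (nu q) a b ∧ Un S a b ∧ dlt q a b = x} with hW
  have hfin : W.Finite := by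
    refine (Set.finite_range fun ab : Fin (n + 3) × Fin (n + 3) => dlt q ab.1 ab.2).subset ?_
    rintro x ⟨a, b, -, -, rfl⟩
    exact ⟨(a, b), rfl⟩
  have hne : W.Nonempty := ⟨_, a, _, hsh, hun, rfl⟩
  obtain ⟨δ, hδ, hmin⟩ := Set.exists_min_image W id hfin hne
  have hle : δ ≤ ln q (a + 1) := (hmin _ ⟨a, _, hsh, hun, rfl⟩).trans (dlt_le_ln hq hsh)
  have hap : ∀ a b, Ap (nu q) a b → δ < co q a + co q b := fun c d h =>
    hle.trans_lt (hC.par c d (a + 1) h)
  refine ⟨δ, ⟨⟨?_, fun a b h1 h2 => hmin _ ⟨a, b, h1, h2, rfl⟩, fun a b h => (hap a b h).le⟩, hδ,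
    hap⟩⟩
  obtain ⟨a, b, h1, -, rfl⟩ := hδ
  exact (Pool.Agent.N441.GP.gd h_PH n q a b hq h1).1

theorem t_VTX : S_VTX := by
  classical
  intro n q δ hn hq hL
  have hcard : (BB q).card ≤ 3 := by
    rcases few hq with h | ⟨hm, hB⟩
    · exact h
    · exfalso
      subst hm
      obtain ⟨a, b, hsh, -, -⟩ := hL.ex
      obtain ⟨h1, h2⟩ := hsh
      have h3 : b = a ∨ b = a + 1 ∨ b = a + 1 + 1 ∨ a = b + 1 := by
        clear * -
        revert a b
        decide
      rcases h3 with h3 | h3 | h3 | h3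
      · rw [h3, cr_self] at h2
        exact lt_irrefl _ h2
      · exact h1 h3
      · have : a ∈ BB q := by rw [hB]; exact Finset.mem_univ _
        rw [mem_BB, ← h3] at this
        exact this h2
      · have h4 := cr_next hq b
        rw [← h3, cr_comm] at h4
        linarith
  have hge : ∀ a, a ∉ BB q → δ ≤ ln q (a + 1) := by
    intro a ha
    have hsh := sh_two ha
    exact (hL.lv.sh a _ hsh ⟨a + 1, bt_two a, Finset.notMem_empty _⟩).trans (dlt_le_ln hq hsh)
  have hδ := hL.lv.pos
  have e1 : ∑ i, ln q i = ∑ a, ln q (a + 1) :=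
    (Equiv.sum_comp (Equiv.addRight (1 : Fin (n + 3))) (ln q)).symm
  rw [e1]
  have h1 : ∑ a ∈ (BB q)ᶜ, ln q (a + 1) ≤ ∑ a, ln q (a + 1) :=
    Finset.sum_le_sum_of_subset_of_nonneg (Finset.subset_univ _) fun i _ _ => norm_nonneg _
  have h2 : ∑ a ∈ (BB q)ᶜ, δ ≤ ∑ a ∈ (BB q)ᶜ, ln q (a + 1) :=
    Finset.sum_le_sum fun a ha => hge a (Finset.mem_compl.1 ha)
  rw [Finset.sum_const, nsmul_eq_mul, Finset.card_compl, Fintype.card_fin] at h2
  have h3 : (n : ℝ) ≤ ((n + 3 - (BB q).card : ℕ) : ℝ) := by
    have : n ≤ n + 3 - (BB q).card := by omega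
    exact_mod_cast this
  have h4 := mul_le_mul_of_nonneg_right h3 hδ.le
  linarith

end Pool.Agent.V5helper38.FC
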